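import Mathlib

/-!
# Unimodular rows over graded subalgebras of Laurent polynomial rings: definitions
-/

set_option autoImplicit false

namespace Pool.Agent.H84.LaurentRows

/-- The Laurent polynomial ring `R[X₁^±1, …, X_m^±1]`. -/
abbrev Laurent (R : Type*) [CommRing R] (m : ℕ) : Type _ := AddMonoidAlgebra R (Fin m → ℤ)

/-- The homogeneous component of total degree `k` of a Laurent polynomial: the sum of its terms
`c X^a` with `a₁ + ⋯ + a_m = k`. -/
noncomputable def homPart {R : Type*} [CommRing R] {m : ℕ} (k : ℤ) (f : Laurent R m) :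
    Laurent R m :=
  AddMonoidAlgebra.ofCoeff (f.coeff.filter fun a => ∑ i, a i = k)

/-- `A` is a graded subalgebra for the total degree, i.e. `A = ⨁ₖ (A ∩ Lₖ)`: it contains all
homogeneous components of each of its elements. -/
def IsGradedSubalgebra {R : Type*} [CommRing R] {m : ℕ} (A : Subalgebra R (Laurent R m)) : Prop :=
  ∀ f ∈ A, ∀ k : ℤ, homPart k f ∈ A

/-- Unimodular rows of length `n`. -/
def Um (n : ℕ) (A : Type*) [CommRing A] : Set (Fin n → A) :=
  {v | ∃ w : Fin n → A, ∑ i, v i * w i = 1}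

/-- The elementary subgroup of `GLₙ(A)`, generated by the matrices `1 + λ e_{ij}`, `i ≠ j`. -/
def E (n : ℕ) (A : Type*) [CommRing A] : Subgroup (GL (Fin n) A) :=
  Subgroup.closure {g | ∃ i j : Fin n, i ≠ j ∧ ∃ c : A,
    (g : Matrix (Fin n) (Fin n) A) = Matrix.transvection i j c}

/-- The row `e₁ = (1, 0, …, 0)`. -/
def e₁ (n : ℕ) (A : Type*) [CommRing A] : Fin n → A := fun j => if (j : ℕ) = 0 then 1 else 0

/-- `e₁ Eₙ(A)`, the set of first rows of elementary matrices. -/
def e₁E (n : ℕ) (A : Type*) [CommRing A] : Set (Fin n → A) :=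
  {v | ∃ g ∈ E n A, Matrix.vecMul (e₁ n A) (g : Matrix (Fin n) (Fin n) A) = v}

/-- The assertion of Q1: for every Noetherian ring `R` of dimension `d`, every `m ≥ 1`, every
graded `R`-subalgebra `A` of `R[X₁^±1, …, X_m^±1]` and every `n ≥ max (d + 2) 3` one has
`Umₙ(A) = e₁ Eₙ(A)`. -/
def Q1 : Prop :=
  ∀ (R : Type) [CommRing R] [IsNoetherianRing R] (d : ℕ), ringKrullDim R = d →
    ∀ m : ℕ, 1 ≤ m → ∀ A : Subalgebra R (Laurent R m), IsGradedSubalgebra A →
      ∀ n : ℕ, max (d + 2) 3 ≤ n → Um n A = e₁E n A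

end Pool.Agent.H84.LaurentRows
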