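import Mathlib

set_option autoImplicit false

namespace Pool.Agent.H84

/-- A continuous nowhere vanishing function on the plane cannot restrict to `z ↦ z ^ k`
(`k ≠ 0`) on the unit circle. -/
theorem no_extension (S : ℂ → ℂ) (hS : Continuous S) (h0 : ∀ z, S z ≠ 0)
    (k : ℤ) (hk : k ≠ 0)
    (hcirc : ∀ t : ℝ, S (Complex.exp (t * Complex.I)) = Complex.exp (k * t * Complex.I)) :
    False := by
  obtain ⟨f, ⟨-, hf⟩, -⟩ := Complex.isCoveringMapOn_exp.existsUnique_continuousMap_lifts
    (A := ℂ) ⟨S, hS⟩ (a₀ := 0) (e₀ := Complex.log (S 0)) (Complex.exp_log (h0 0))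
    (fun a => h0 a)
  have hf' : ∀ z, Complex.exp (f z) = S z := fun z => congrFun hf z
  have key : ∀ t : ℝ, ∃ n : ℤ, f (Complex.exp (t * Complex.I)) - k * t * Complex.I
      = n * (2 * Real.pi * Complex.I) := by
    intro t
    have h1 := hf' (Complex.exp (t * Complex.I))
    rw [hcirc, Complex.exp_eq_exp_iff_exists_int] at h1
    obtain ⟨n, hn⟩ := h1
    exact ⟨n, by rw [hn]; ring⟩
  choose n hn using key
  have h2pi : (2 * (Real.pi : ℂ) * Complex.I) ≠ 0 := by
    simp [Real.pi_ne_zero]
  have hncont : Continuous (fun t : ℝ => (n t : ℝ)) := by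
    have : (fun t : ℝ => (n t : ℝ)) = fun t : ℝ =>
        ((f (Complex.exp (t * Complex.I)) - k * t * Complex.I) /
          (2 * Real.pi * Complex.I)).re := by
      funext t
      rw [hn t, mul_div_assoc, div_self h2pi, mul_one]
      simp
    rw [this]
    fun_prop
  have hncont' : Continuous n := by
    rw [Int.isClosedEmbedding_coe_real.isInducing.continuous_iff]
    exact hncont
  have hconst : n 0 = n (2 * Real.pi) := PreconnectedSpace.constant inferInstance hncont'
  have h1 := hn 0
  have h2 := hn (2 * Real.pi)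
  have e1 : Complex.exp (((2 * Real.pi : ℝ) : ℂ) * Complex.I) = 1 := by
    push_cast
    exact Complex.exp_two_pi_mul_I
  rw [e1, ← hconst] at h2
  simp only [Complex.ofReal_zero, zero_mul, Complex.exp_zero, mul_zero, sub_zero] at h1
  rw [h1] at h2
  push_cast at h2
  have h3 : (k : ℂ) * (2 * Real.pi * Complex.I) = 0 := by linear_combination -h2
  rcases mul_eq_zero.mp h3 with h | h
  · exact hk (by exact_mod_cast h)
  · exact h2pi h

end Pool.Agent.H84
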