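import Mathlib
import Pool.Agent.H84.Winding
import Pool.Agent.H84.LaurentDefs

/-!
# Elementary transitivity fails over graded subalgebras of Laurent polynomial rings: proof

For every commutative ring `R` with a ring
homomorphism to `ℝ` (for example `ℤ`, `ℚ`, `ℝ`) we construct a finitely generated graded
`R`-subalgebra `A` of `R[X₁^±1, X₂^±1, X₃^±1]` and a unimodular row of length `3` over `A` which is
not even the first row of an invertible matrix over `A` (`strong`).

Construction: put `x = X₁/X₃`, `y = X₂/X₃`, `ρ = 1 - x² - y²`, and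
`v = (1 - ρ - ρ², ρ y, ρ x)`,
`w = (1 + (1 - 2ρ)(ρ + ρ²), (3 + 2ρ)(ρ + ρ²) y, (3 + 2ρ)(ρ + ρ²) x)`; then `v · w = 1`.
`A` is generated by the six entries of `v` and `w`; its elements are constant on the unit circle.
If `v` were the first row of an invertible matrix over `A`, comparison with the quaternionic
rotation matrix with first row `v` would extend the map `z ↦ z⁻²` from the unit circle to a
nowhere zero continuous function on the plane.
-/

set_option autoImplicit false

namespace Pool.Agent.H84.LaurentRows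

open MvPolynomial Matrix

/-! ### The polynomial model -/

section Model

variable (R : Type*) [CommRing R]

/-- `R[x,y]`. -/
abbrev B : Type _ := MvPolynomial (Fin 2) R

/-- `ρ = 1 - x² - y²`. -/
noncomputable def rho : B R := 1 - X 0 ^ 2 - X 1 ^ 2

/-- the row `v`. -/
noncomputable def vB : Fin 3 → B R := ![1 - rho R - rho R ^ 2, rho R * X 1, rho R * X 0]

/-- the row `w` with `v · w = 1`. -/
noncomputable def wB : Fin 3 → B R :=
  ![1 + (1 - 2 * rho R) * (rho R + rho R ^ 2), (3 + 2 * rho R) * (rho R + rho R ^ 2) * X 1,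
    (3 + 2 * rho R) * (rho R + rho R ^ 2) * X 0]

theorem vw : ∑ i, vB R i * wB R i = 1 := by
  simp only [Fin.sum_univ_three, vB, wB, Matrix.cons_val_zero, Matrix.cons_val_one,
    Matrix.cons_val, rho]
  ring

/-- The subalgebra of `R[x,y]` generated by the entries of `v` and `w`. -/
noncomputable def AB : Subalgebra R (B R) := Algebra.adjoin R (Set.range (vB R) ∪ Set.range (wB R))

theorem AB_fg : (AB R).FG := by
  refine ⟨(Set.finite_range (vB R) |>.union (Set.finite_range (wB R))).toFinset, ?_⟩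
  simp [AB]

variable {R}
variable (φ : R →+* ℝ)

/-- polynomials constant on the unit circle. -/
noncomputable def circ : Subalgebra R (B R) where
  carrier := {p | ∀ z z' : Fin 2 → ℝ, z 0 ^ 2 + z 1 ^ 2 = 1 → z' 0 ^ 2 + z' 1 ^ 2 = 1 →
    eval₂Hom φ z p = eval₂Hom φ z' p}
  mul_mem' := by
    intro a b ha hb z z' hz hz'
    simp only [map_mul, ha z z' hz hz', hb z z' hz hz']
  add_mem' := by
    intro a b ha hb z z' hz hz'
    simp only [map_add, ha z z' hz hz', hb z z' hz hz']
  algebraMap_mem' := by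
    intro r z z' hz hz'
    simp [MvPolynomial.algebraMap_eq]

theorem AB_le : AB R ≤ circ φ := by
  refine Algebra.adjoin_le ?_
  rintro p (⟨i, rfl⟩ | ⟨i, rfl⟩) z z' hz hz'
  · have e : (1 : ℝ) - z 0 ^ 2 - z 1 ^ 2 = 0 := by linarith
    have e' : (1 : ℝ) - z' 0 ^ 2 - z' 1 ^ 2 = 0 := by linarith
    fin_cases i <;> simp [vB, rho, e, e']
  · have e : (1 : ℝ) - z 0 ^ 2 - z 1 ^ 2 = 0 := by linarith
    have e' : (1 : ℝ) - z' 0 ^ 2 - z' 1 ^ 2 = 0 := by linarith
    fin_cases i <;> simp [wB, rho, e, e']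

end Model

/-! ### Embedding into the Laurent ring: `x = X₁/X₃`, `y = X₂/X₃`. -/

/-- exponent map `(a,b) ↦ (a, b, -a-b)`. -/
def expo : (Fin 2 →₀ ℕ) →+ (Fin 3 → ℤ) where
  toFun a := ![(a 0 : ℤ), (a 1 : ℤ), -(a 0 : ℤ) - (a 1 : ℤ)]
  map_zero' := by ext i; fin_cases i <;> simp
  map_add' a b := by
    ext i; fin_cases i <;> (simp; try ring)

theorem expo_inj : Function.Injective expo := by
  intro a b h
  have h0 := congrFun h 0
  have h1 := congrFun h 1
  simp [expo] at h0 h1
  ext i
  fin_cases i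
  · simpa using h0
  · simpa using h1

section Emb

variable (R : Type*) [CommRing R]

/-- the embedding `R[x,y] → R[X₁^±1, X₂^±1, X₃^±1]`. -/
noncomputable def psi : B R →ₐ[R] Laurent R 3 := AddMonoidAlgebra.mapDomainAlgHom R R expo

theorem psi_inj : Function.Injective (psi R) := by
  have := AddMonoidAlgebra.mapDomain_injective (R := R) expo_inj
  intro a b h
  apply this
  simpa [psi] using h

/-- The counterexample algebra. -/
noncomputable def A : Subalgebra R (Laurent R 3) := (AB R).map (psi R)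

theorem A_fg : (A R).FG := (AB_fg R).map (psi R)

theorem range_le (f : B R) (a : Fin 3 → ℤ) (h : (psi R f).coeff a ≠ 0) : ∑ i, a i = 0 := by
  induction f using MvPolynomial.induction_on' with
  | monomial u c =>
    have h1 : psi R (monomial u c) = AddMonoidAlgebra.single (expo u) c := by
      simp [psi, monomial]
    rw [h1, AddMonoidAlgebra.coeff_single, Finsupp.single_apply] at h
    split_ifs at h with h2
    · rw [← h2]
      simp [expo, Fin.sum_univ_three]
    · exact absurd rfl h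
  | add p q hp hq =>
    rw [map_add, AddMonoidAlgebra.coeff_add, Finsupp.add_apply] at h
    by_cases hp0 : (psi R p).coeff a = 0
    · exact hq fun hq0 => h (by rw [hp0, hq0, add_zero])
    · exact hp hp0

theorem A_graded : IsGradedSubalgebra (A R) := by
  intro g hg k
  obtain ⟨f, hf, hfg⟩ := hg
  have hfg' : psi R f = g := hfg
  by_cases hk : k = 0
  · have : homPart k g = g := by
      rw [← hfg']
      unfold homPart
      rw [(Finsupp.filter_eq_self_iff _ _).2 fun a ha => by rw [hk]; exact range_le R f a ha]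
    rw [this]
    exact ⟨f, hf, hfg⟩
  · have : homPart k g = 0 := by
      rw [← hfg']
      unfold homPart
      rw [(Finsupp.filter_eq_zero_iff _ _).2 fun a ha => by
        by_contra hne
        exact hk (ha.symm.trans (range_le R f a hne))]
      rfl
    rw [this]
    exact Subalgebra.zero_mem _

/-- the isomorphism `A ≃ AB`, followed by the inclusion into `R[x,y]`. -/
noncomputable def phi : A R →+* B R :=
  ((AB R).val : AB R →+* B R).comp
    (((AB R).equivMapOfInjective (psi R) (psi_inj R)).symm : A R ≃ₐ[R] AB R).toRingEquiv.toRingHom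

theorem phi_mem (a : A R) : phi R a ∈ AB R :=
  (((AB R).equivMapOfInjective (psi R) (psi_inj R)).symm a).2

theorem psi_phi (a : A R) : psi R (phi R a) = a := by
  have := congrArg Subtype.val
    (((AB R).equivMapOfInjective (psi R) (psi_inj R)).apply_symm_apply a)
  exact this

theorem vB_mem (i : Fin 3) : vB R i ∈ AB R := Algebra.subset_adjoin (Or.inl ⟨i, rfl⟩)

theorem wB_mem (i : Fin 3) : wB R i ∈ AB R := Algebra.subset_adjoin (Or.inr ⟨i, rfl⟩)

/-- The unimodular row over `A`. -/
noncomputable def v (i : Fin 3) : A R := ⟨psi R (vB R i), ⟨vB R i, vB_mem R i, rfl⟩⟩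

/-- Its dual row over `A`. -/
noncomputable def w (i : Fin 3) : A R := ⟨psi R (wB R i), ⟨wB R i, wB_mem R i, rfl⟩⟩

theorem phi_v (i : Fin 3) : phi R (v R i) = vB R i := psi_inj R (psi_phi R _)

theorem v_mem_Um : v R ∈ Um 3 (A R) := by
  refine ⟨w R, Subtype.ext ?_⟩
  have := congrArg (psi R) (vw R)
  simpa [v, w] using this

end Emb

/-! ### The topological part -/

/-- evaluation point attached to a complex number. -/
noncomputable def pt (z : ℂ) : Fin 2 → ℝ := ![z.re, z.im]

theorem cont_eval {R : Type*} [CommRing R] (φ : R →+* ℝ) (p : B R) :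
    Continuous fun z : ℂ => eval₂Hom φ (pt z) p := by
  have h : Continuous fun z : ℂ => pt z := by
    unfold pt
    fun_prop
  have h2 : ∀ z : ℂ, eval₂Hom φ (pt z) p = eval (pt z) (map φ p) := by
    intro z
    rw [eval_map]; rfl
  simp only [h2]
  exact (MvPolynomial.continuous_eval (map φ p)).comp h

/-- value of `ρ` at `z`. -/
noncomputable def r (z : ℂ) : ℝ := 1 - z.re ^ 2 - z.im ^ 2

/-- The matrix with first row `v`. -/
noncomputable def Rm (z : ℂ) : Matrix (Fin 3) (Fin 3) ℝ :=
  !![1 - r z - r z ^ 2, r z * z.im, r z * z.re;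
     2 * z.im * r z, (z.re ^ 2 - z.im ^ 2 + r z ^ 2) / 2, - z.re * z.im;
     - 2 * z.re * r z, z.re * z.im, (z.re ^ 2 - z.im ^ 2 - r z ^ 2) / 2]

theorem Rm_det (z : ℂ) : (Rm z).det ≠ 0 := by
  have h : (Rm z).det = (z.re ^ 2 + z.im ^ 2 + r z ^ 2) ^ 3 / 4 := by
    rw [Matrix.det_fin_three]
    simp [Rm, r]
    ring
  rw [h]
  have : 0 < z.re ^ 2 + z.im ^ 2 + r z ^ 2 := by
    unfold r
    nlinarith [sq_nonneg (1 - z.re ^ 2 - z.im ^ 2 - 1 / 2)]
  positivity

theorem Rm_row0 {R : Type*} [CommRing R] (φ : R →+* ℝ) (z : ℂ) (j : Fin 3) :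
    Rm z 0 j = eval₂Hom φ (pt z) (vB R j) := by
  fin_cases j <;> simp [Rm, vB, rho, pt, r]

/-- The topological obstruction: no continuous family of invertible matrices `K`, constant on the
unit circle, makes the first row of `Rm * K` equal to `(1,0,0)`. -/
theorem top_obstruction (K : ℂ → Matrix (Fin 3) (Fin 3) ℝ)
    (hKcont : ∀ i j, Continuous fun z => K z i j) (hKdet : ∀ z, (K z).det ≠ 0)
    (hS0 : ∀ z j, (Rm z * K z) 0 j = (1 : Matrix (Fin 3) (Fin 3) ℝ) 0 j)
    (hKc : ∀ z : ℂ, z.re ^ 2 + z.im ^ 2 = 1 → K z = K 1) : False := by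
  have hdet : ∀ z, (Rm z * K z).det ≠ 0 := by
    intro z
    rw [Matrix.det_mul]
    exact mul_ne_zero (Rm_det z) (hKdet z)
  have hne : ∀ z, ¬ ((Rm z * K z) 1 1 = 0 ∧ (Rm z * K z) 1 2 = 0) := by
    rintro z ⟨ha, hb⟩
    apply hdet z
    rw [Matrix.det_fin_three, hS0 z 0, hS0 z 1, hS0 z 2, ha, hb]
    simp
  have hr1 : r 1 = 0 := by simp [r]
  have hK00 : ∀ j, K 1 0 j = (1 : Matrix (Fin 3) (Fin 3) ℝ) 0 j := by
    intro j
    have h1 := hS0 1 j
    rw [Matrix.mul_apply, Fin.sum_univ_three] at h1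
    simpa [Rm, hr1] using h1
  have hK01 : K 1 0 1 = 0 := by simpa using hK00 1
  have hK02 : K 1 0 2 = 0 := by simpa using hK00 2
  obtain ⟨a, ha⟩ : ∃ a, K 1 1 1 = a := ⟨_, rfl⟩
  obtain ⟨b, hb⟩ : ∃ b, K 1 1 2 = b := ⟨_, rfl⟩
  obtain ⟨c, hc⟩ : ∃ c, K 1 2 1 = c := ⟨_, rfl⟩
  obtain ⟨d, hd⟩ : ∃ d, K 1 2 2 = d := ⟨_, rfl⟩
  have hδ : a * d - b * c ≠ 0 := by
    intro h
    apply hKdet 1
    rw [Matrix.det_fin_three, hK01, hK02, ha, hb, hc, hd]
    linear_combination K 1 0 0 * h
  obtain ⟨δ, hδdef⟩ : ∃ δ, a * d - b * c = δ := ⟨_, rfl⟩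
  rw [hδdef] at hδ
  obtain ⟨s1, hs1⟩ : ∃ s1 : ℂ → ℝ, s1 = fun z => (Rm z * K z) 1 1 := ⟨_, rfl⟩
  obtain ⟨s2, hs2⟩ : ∃ s2 : ℂ → ℝ, s2 = fun z => (Rm z * K z) 1 2 := ⟨_, rfl⟩
  have hScont : ∀ j, Continuous fun z => (Rm z * K z) 1 j := by
    intro j
    simp only [Matrix.mul_apply]
    refine continuous_finsetSum _ fun k _ => Continuous.mul ?_ (hKcont _ _)
    unfold Rm r
    fin_cases k <;> simp <;> fun_prop
  have hs1c : Continuous s1 := by rw [hs1]; exact hScont 1
  have hs2c : Continuous s2 := by rw [hs2]; exact hScont 2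
  have hne' : ∀ z, ¬ (s1 z = 0 ∧ s2 z = 0) := by
    rw [hs1, hs2]; exact hne
  have hcircle : ∀ z : ℂ, z.re ^ 2 + z.im ^ 2 = 1 →
      s1 z = (z.re ^ 2 - z.im ^ 2) / 2 * a + (- z.re * z.im) * c ∧
      s2 z = (z.re ^ 2 - z.im ^ 2) / 2 * b + (- z.re * z.im) * d := by
    intro z hz
    have hr : r z = 0 := by unfold r; linarith
    have hR10 : Rm z 1 0 = 0 := by simp [Rm, hr]
    have hR11 : Rm z 1 1 = (z.re ^ 2 - z.im ^ 2) / 2 := by simp [Rm, hr]
    have hR12 : Rm z 1 2 = - z.re * z.im := by simp [Rm]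
    rw [hs1, hs2]
    constructor
    · simp only [Matrix.mul_apply, Fin.sum_univ_three, hKc z hz, hR10, hR11, hR12, ha, hc]
      ring
    · simp only [Matrix.mul_apply, Fin.sum_univ_three, hKc z hz, hR10, hR11, hR12, hb, hd]
      ring
  clear hs1 hs2 hScont hne hS0 hKc hKcont hKdet hdet hK00 hK01 hK02 ha hb hc hd
  refine Pool.Agent.H84.no_extension (fun z => 2 * ((((s1 z * d - s2 z * c) / δ : ℝ) : ℂ) +
    (((- s1 z * b + s2 z * a) / δ : ℝ) : ℂ) * Complex.I)) (by fun_prop) ?_ (-2) (by norm_num) ?_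
  · intro z hz
    have hz' := (mul_eq_zero.mp hz).resolve_left two_ne_zero
    have h1 : (s1 z * d - s2 z * c) / δ = 0 := by simpa using congrArg Complex.re hz'
    have h2 : (- s1 z * b + s2 z * a) / δ = 0 := by simpa using congrArg Complex.im hz'
    simp only [div_eq_zero_iff, hδ, or_false] at h1 h2
    apply hne' z
    constructor
    · have : s1 z * δ = 0 := by
        rw [← hδdef]
        linear_combination a * h1 + c * h2
      exact (mul_eq_zero.mp this).resolve_right hδ
    · have : s2 z * δ = 0 := by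
        rw [← hδdef]
        linear_combination b * h1 + d * h2
      exact (mul_eq_zero.mp this).resolve_right hδ
  · intro t
    obtain ⟨z, hz⟩ : ∃ z, z = Complex.exp (t * Complex.I) := ⟨_, rfl⟩
    have hzre : z.re = Real.cos t := by rw [hz, Complex.exp_ofReal_mul_I_re]
    have hzim : z.im = Real.sin t := by rw [hz, Complex.exp_ofReal_mul_I_im]
    have hcirc : z.re ^ 2 + z.im ^ 2 = 1 := by rw [hzre, hzim]; exact Real.cos_sq_add_sin_sq t
    obtain ⟨e1, e2⟩ := hcircle z hcirc
    have hT1 : (s1 z * d - s2 z * c) / δ = (Real.cos t ^ 2 - Real.sin t ^ 2) / 2 := by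
      rw [e1, e2, div_eq_iff hδ, ← hδdef, hzre, hzim]
      ring
    have hT2 : (- s1 z * b + s2 z * a) / δ = - Real.cos t * Real.sin t := by
      rw [e1, e2, div_eq_iff hδ, ← hδdef, hzre, hzim]
      ring
    have hexp : Complex.exp (((-2 : ℤ) : ℂ) * t * Complex.I) =
        (Real.cos t - Real.sin t * Complex.I) ^ 2 := by
      have : ((-2 : ℤ) : ℂ) * t * Complex.I = (2 : ℕ) * (((-t : ℝ) : ℂ) * Complex.I) := by
        push_cast; ring
      rw [this, Complex.exp_nat_mul]
      congr 1
      apply Complex.ext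
      · rw [Complex.exp_ofReal_mul_I_re]
        simp only [Complex.sub_re, Complex.ofReal_re, Complex.mul_re, Complex.I_re,
          Complex.ofReal_im, Complex.I_im, Real.cos_neg]
        ring
      · rw [Complex.exp_ofReal_mul_I_im]
        simp only [Complex.sub_im, Complex.ofReal_re, Complex.mul_im, Complex.I_re,
          Complex.ofReal_im, Complex.I_im, Real.sin_neg]
        ring
    rw [hexp, ← hz]
    simp only [hT1, hT2]
    push_cast
    linear_combination (-1 : ℂ) * (Complex.sin t) ^ 2 * Complex.I_sq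

theorem not_first_row {R : Type*} [CommRing R] (φ : R →+* ℝ) (g : GL (Fin 3) (A R)) :
    Matrix.vecMul (e₁ 3 (A R)) (g : Matrix (Fin 3) (Fin 3) (A R)) ≠ v R := by
  intro hg
  have hgv : ∀ j, g.val 0 j = v R j := by
    intro j
    have := congrFun hg j
    simpa [Matrix.vecMul, dotProduct, e₁, Fin.sum_univ_three] using this
  -- evaluation homomorphisms
  obtain ⟨ev, hev⟩ : ∃ ev : ℂ → (A R →+* ℝ), ∀ z a, ev z a = eval₂Hom φ (pt z) (phi R a) :=
    ⟨fun z => (eval₂Hom φ (pt z)).comp (phi R), fun z a => rfl⟩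
  have ev_cont : ∀ a : A R, Continuous fun z => ev z a := fun a => by
    simp only [hev]; exact cont_eval φ (phi R a)
  have ev_circ : ∀ a : A R, ∀ z z' : ℂ, z.re ^ 2 + z.im ^ 2 = 1 → z'.re ^ 2 + z'.im ^ 2 = 1 →
      ev z a = ev z' a := by
    intro a z z' hz hz'
    rw [hev, hev]
    exact AB_le φ (phi_mem R a) (pt z) (pt z') (by simpa [pt] using hz) (by simpa [pt] using hz')
  have hGK : ∀ z, (ev z).mapMatrix g.val * (ev z).mapMatrix (g⁻¹ : GL (Fin 3) (A R)).val = 1 := by
    intro z
    rw [← map_mul, ← Units.val_mul, mul_inv_cancel]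
    simp
  refine top_obstruction (fun z => (ev z).mapMatrix (g⁻¹ : GL (Fin 3) (A R)).val) ?_ ?_ ?_ ?_
  · intro i j
    exact ev_cont _
  · intro z
    have h2 := congrArg Matrix.det (hGK z)
    rw [Matrix.det_mul, Matrix.det_one] at h2
    exact right_ne_zero_of_mul_eq_one h2
  · intro z j
    rw [← hGK z, Matrix.mul_apply, Matrix.mul_apply]
    refine Finset.sum_congr rfl fun k _ => ?_
    congr 1
    rw [Rm_row0 φ, ← phi_v R k, ← hgv k, RingHom.mapMatrix_apply, Matrix.map_apply, hev]
  · intro z hz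
    ext i j
    exact ev_circ _ z 1 hz (by simp)

/-- The strong form: over every ring `R` with a homomorphism to `ℝ` there is a finitely generated
graded subalgebra of `R[X₁^±1, X₂^±1, X₃^±1]` with a unimodular row of length `3` which is not the
first row of any invertible matrix. -/
theorem strong (R : Type*) [CommRing R] (φ : R →+* ℝ) :
    ∃ A : Subalgebra R (Laurent R 3), IsGradedSubalgebra A ∧ A.FG ∧
      ∃ v ∈ Um 3 A, ∀ g : GL (Fin 3) A,
        Matrix.vecMul (e₁ 3 A) (g : Matrix (Fin 3) (Fin 3) A) ≠ v :=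
  ⟨A R, A_graded R, A_fg R, v R, v_mem_Um R, not_first_row φ⟩


end Pool.Agent.H84.LaurentRows
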