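import Mathlib

/-!
# The lattice of varieties of implication zroupoids: definitions
-/

set_option autoImplicit false

namespace Pool.Agent.H84.Zroupoid

/-- Terms of type `(2,0)` over countably many variables. -/
inductive Term : Type
  | var : ℕ → Term
  | zero : Term
  | imp : Term → Term → Term

/-- Algebras of type `(2,0)`. -/
structure Alg : Type 1 where
  carrier : Type
  imp : carrier → carrier → carrier
  zero : carrier

/-- Value of a term in an algebra under an assignment of the variables. -/
def Term.eval (A : Alg) (v : ℕ → A.carrier) : Term → A.carrier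
  | .var n => v n
  | .zero => A.zero
  | .imp s t => A.imp (s.eval A v) (t.eval A v)

/-- The algebra `A` satisfies the identity `e.1 ≈ e.2`. -/
def Sat (A : Alg) (e : Term × Term) : Prop := ∀ v : ℕ → A.carrier, e.1.eval A v = e.2.eval A v

/-- The class of all models of a set of identities. -/
def Mod (E : Set (Term × Term)) : Set Alg := {A | ∀ e ∈ E, Sat A e}

/-- The set of all identities valid in a class of algebras. -/
def Th (K : Set Alg) : Set (Term × Term) := {e | ∀ A ∈ K, Sat A e}

/-- The class of implication zroupoids: `(x → y) → z ≈ ((z' → x) → (y → z)')'` and `0'' ≈ 0`,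
where `u' = u → 0`. -/
def IZ : Set Alg := {A |
  (∀ x y z : A.carrier, A.imp (A.imp x y) z =
    A.imp (A.imp (A.imp (A.imp z A.zero) x) (A.imp (A.imp y z) A.zero)) A.zero) ∧
  A.imp (A.imp A.zero A.zero) A.zero = A.zero}

/-- A subvariety of `IZ`: a class of implication zroupoids defined by a set of identities. -/
def IsSubvariety (K : Set Alg) : Prop := K ⊆ IZ ∧ ∃ E : Set (Term × Term), K = Mod E

/-- The set of all subvarieties of `IZ`. -/
def SubIZ : Type 1 := {K : Set Alg // IsSubvariety K}

theorem gc_sub (K : Set Alg) : K ⊆ Mod (Th K) := fun A hA _ he => he A hA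

theorem mod_anti {E F : Set (Term × Term)} (h : E ⊆ F) : Mod F ⊆ Mod E :=
  fun _ hA e he => hA e (h he)

theorem th_anti {K L : Set Alg} (h : K ⊆ L) : Th L ⊆ Th K :=
  fun _ he A hA => he A (h hA)

theorem mod_th_mod (E : Set (Term × Term)) : Mod (Th (Mod E)) = Mod E :=
  Set.Subset.antisymm (fun _ hA e he => hA e fun _ hB => hB e he) (gc_sub _)

/-- The two defining identities of `IZ`. -/
def izIdentities : Set (Term × Term) :=
  {(.imp (.imp (.var 0) (.var 1)) (.var 2),
    .imp (.imp (.imp (.imp (.var 2) .zero) (.var 0)) (.imp (.imp (.var 1) (.var 2)) .zero)) .zero),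
   (.imp (.imp .zero .zero) .zero, .zero)}

theorem IZ_eq : IZ = Mod izIdentities := by
  ext A
  constructor
  · rintro ⟨h1, h2⟩ e (rfl | rfl) v
    · exact h1 _ _ _
    · exact h2
  · intro h
    refine ⟨fun x y z => ?_, ?_⟩
    · exact h _ (Or.inl rfl) (fun n => if n = 0 then x else if n = 1 then y else z)
    · exact h _ (Or.inr rfl) (fun _ => A.zero)

theorem isSubvariety_generated {K : Set Alg} (h : K ⊆ IZ) : IsSubvariety (Mod (Th K)) := by
  refine ⟨?_, Th K, rfl⟩
  rw [IZ_eq] at h ⊢
  rw [← mod_th_mod izIdentities]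
  exact mod_anti (th_anti h)

theorem isSubvariety_inter {K L : Set Alg} (hK : IsSubvariety K) (hL : IsSubvariety L) :
    IsSubvariety (K ∩ L) := by
  obtain ⟨hK, E, rfl⟩ := hK
  obtain ⟨hL, F, rfl⟩ := hL
  refine ⟨fun A hA => hK hA.1, E ∪ F, ?_⟩
  ext A
  constructor
  · rintro ⟨h1, h2⟩ e (he | he)
    · exact h1 e he
    · exact h2 e he
  · intro h
    exact ⟨fun e he => h e (Or.inl he), fun e he => h e (Or.inr he)⟩

/-- The subvariety of `IZ` generated by a class of implication zroupoids. -/
def generated (K : Set Alg) (h : K ⊆ IZ) : SubIZ := ⟨Mod (Th K), isSubvariety_generated h⟩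

theorem closed (K : SubIZ) : Mod (Th K.1) = K.1 := by
  obtain ⟨K, hK, E, rfl⟩ := K
  exact mod_th_mod E

/-- The lattice of subvarieties of `IZ`: ordered by inclusion, the meet is the intersection, the
join is the variety generated by the union. -/
instance : Lattice SubIZ where
  le K L := K.1 ⊆ L.1
  le_refl K := Set.Subset.refl K.1
  le_trans _ _ _ h1 h2 := Set.Subset.trans h1 h2
  le_antisymm _ _ h1 h2 := Subtype.ext (Set.Subset.antisymm h1 h2)
  sup K L := generated (K.1 ∪ L.1) (Set.union_subset K.2.1 L.2.1)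
  le_sup_left K L := Set.Subset.trans Set.subset_union_left (gc_sub _)
  le_sup_right K L := Set.Subset.trans Set.subset_union_right (gc_sub _)
  sup_le K L M h1 h2 := by
    change Mod (Th (K.1 ∪ L.1)) ⊆ M.1
    rw [← closed M]
    exact mod_anti (th_anti (Set.union_subset h1 h2))
  inf K L := ⟨K.1 ∩ L.1, isSubvariety_inter K.2 L.2⟩
  inf_le_left _ _ := Set.inter_subset_left
  inf_le_right _ _ := Set.inter_subset_right
  le_inf _ _ _ h1 h2 := Set.subset_inter h1 h2

/-- An element `a` of a lattice is neutral if for all `y`, `z` the sublattice generated by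
`a`, `y`, `z` is distributive. -/
def IsNeutral {L : Type*} [Lattice L] (a : L) : Prop :=
  ∀ y z : L, ∀ u ∈ latticeClosure {a, y, z}, ∀ v ∈ latticeClosure {a, y, z},
    ∀ w ∈ latticeClosure {a, y, z}, u ⊓ (v ⊔ w) = (u ⊓ v) ⊔ (u ⊓ w)

/-- Algebras with `x → y ≈ 0`. -/
def classZM : Set Alg := {A | ∀ x y : A.carrier, A.imp x y = A.zero}

/-- Implication zroupoids with `→` associative, idempotent and commutative. -/
def classSL : Set Alg := {A | A ∈ IZ ∧
  (∀ x y z : A.carrier, A.imp (A.imp x y) z = A.imp x (A.imp y z)) ∧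
  (∀ x : A.carrier, A.imp x x = x) ∧ (∀ x y : A.carrier, A.imp x y = A.imp y x)}

/-- Boolean algebras, viewed as algebras of type `(2,0)` via `x → y = ¬ x ∨ y` and `0 = ⊥`. -/
def classBA : Set Alg := {A | ∃ _ : BooleanAlgebra A.carrier,
  (∀ x y : A.carrier, A.imp x y = xᶜ ⊔ y) ∧ A.zero = ⊥}

theorem isSubvariety_ZM : IsSubvariety classZM := by
  refine ⟨fun A hA => ⟨fun x y z => ?_, ?_⟩, {(.imp (.var 0) (.var 1), .zero)}, ?_⟩
  · rw [hA, hA (A.imp (A.imp z A.zero) x)]
    rw [hA]
  · exact hA _ _
  · ext A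
    constructor
    · rintro h e rfl v
      exact h _ _
    · intro h x y
      exact h _ rfl (fun n => if n = 0 then x else y)

theorem isSubvariety_SL : IsSubvariety classSL := by
  refine ⟨fun A hA => hA.1, izIdentities ∪
    {(.imp (.imp (.var 0) (.var 1)) (.var 2), .imp (.var 0) (.imp (.var 1) (.var 2))),
     (.imp (.var 0) (.var 0), .var 0), (.imp (.var 0) (.var 1), .imp (.var 1) (.var 0))}, ?_⟩
  ext A
  constructor
  · rintro ⟨h0, h1, h2, h3⟩ e (he | he)
    · rw [IZ_eq] at h0
      exact h0 e he
    · rcases he with rfl | rfl | rfl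
      · exact fun v => h1 _ _ _
      · exact fun v => h2 _
      · exact fun v => h3 _ _
  · intro h
    refine ⟨?_, fun x y z => ?_, fun x => ?_, fun x y => ?_⟩
    · rw [IZ_eq]
      exact fun e he => h e (Or.inl he)
    · exact h _ (Or.inr (Or.inl rfl)) (fun n => if n = 0 then x else if n = 1 then y else z)
    · exact h _ (Or.inr (Or.inr (Or.inl rfl))) (fun _ => x)
    · exact h _ (Or.inr (Or.inr (Or.inr rfl))) (fun n => if n = 0 then x else y)

end Pool.Agent.H84.Zroupoid
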