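import Mathlib
import Pool.Agent.H84.ZroupoidDefs

/-!
# Boolean algebras viewed as implication zroupoids form a variety
-/

set_option autoImplicit false

namespace Pool.Agent.H84.Zroupoid

/-- The `(2,0)`-algebra attached to a Boolean algebra. -/
abbrev ofBA (B : Type) [BooleanAlgebra B] : Alg := ⟨B, fun x y => xᶜ ⊔ y, ⊥⟩

theorem eq_ofBA {B : Type} {imp : B → B → B} {zero : B} (hB : BooleanAlgebra B)
    (h1 : ∀ x y, imp x y = xᶜ ⊔ y) (h2 : zero = ⊥) :
    (⟨B, imp, zero⟩ : Alg) = ofBA B := by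
  have h1' : imp = fun x y => xᶜ ⊔ y := by
    funext x y; exact h1 x y
  subst h1' h2
  rfl

theorem classBA_iff (A : Alg) :
    A ∈ classBA ↔ ∃ (B : Type) (_ : BooleanAlgebra B), A = ofBA B := by
  constructor
  · intro hA
    obtain ⟨B, imp, zero⟩ := A
    obtain ⟨hB, h1, h2⟩ := hA
    exact ⟨B, hB, eq_ofBA hB h1 h2⟩
  · rintro ⟨B, hB, rfl⟩
    exact ⟨hB, fun _ _ => rfl, rfl⟩

theorem th_BA_of (s t : Term)
    (h : ∀ (B : Type) [BooleanAlgebra B] (v : ℕ → B), s.eval (ofBA B) v = t.eval (ofBA B) v) :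
    (s, t) ∈ Th classBA := by
  intro A hA v
  rw [classBA_iff] at hA
  obtain ⟨B, hB, rfl⟩ := hA
  exact h B v

theorem classBA_sub_IZ : classBA ⊆ IZ := by
  intro A hA
  rw [classBA_iff] at hA
  obtain ⟨B, hB, rfl⟩ := hA
  refine ⟨fun (x y z : B) => ?_, ?_⟩
  · change (xᶜ ⊔ y)ᶜ ⊔ z = ((((zᶜ ⊔ ⊥)ᶜ ⊔ x)ᶜ ⊔ ((yᶜ ⊔ z)ᶜ ⊔ ⊥)))ᶜ ⊔ ⊥
    simp only [sup_bot_eq, compl_sup, compl_compl, compl_inf]
    rw [sup_comm z x, sup_comm (x ⊓ yᶜ) z, sup_inf_left, sup_comm z x, sup_comm z yᶜ]
  · change ((⊥ : B)ᶜ ⊔ ⊥)ᶜ ⊔ ⊥ = ⊥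
    simp

/-- Construction of a Boolean algebra from valid identities. -/
theorem isSubvariety_BA : IsSubvariety classBA := by
  refine ⟨classBA_sub_IZ, Th classBA, Set.Subset.antisymm (gc_sub _) ?_⟩
  intro A hA
  -- operations
  let sp : A.carrier → A.carrier → A.carrier := fun x y => A.imp (A.imp x A.zero) y
  let nf : A.carrier → A.carrier → A.carrier :=
    fun x y => A.imp (A.imp x (A.imp y A.zero)) A.zero
  let cp : A.carrier → A.carrier := fun x => A.imp x A.zero
  have asg : ∀ x y z : A.carrier, ∃ v : ℕ → A.carrier, v 0 = x ∧ v 1 = y ∧ v 2 = z := fun x y z =>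
    ⟨fun n => if n = 0 then x else if n = 1 then y else z, rfl, rfl, rfl⟩
  have key : ∀ (s t : Term), (∀ (B : Type) [BooleanAlgebra B] (v : ℕ → B),
      s.eval (ofBA B) v = t.eval (ofBA B) v) → ∀ v : ℕ → A.carrier, s.eval A v = t.eval A v :=
    fun s t h v => hA _ (th_BA_of s t h) v
  let X : Term := .var 0
  let Y : Term := .var 1
  let Z : Term := .var 2
  let S : Term → Term → Term := fun s t => .imp (.imp s .zero) t
  let N : Term → Term → Term := fun s t => .imp (.imp s (.imp t .zero)) .zero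
  let C : Term → Term := fun s => .imp s .zero
  have sup_comm' : ∀ x y, sp x y = sp y x := by
    intro x y
    obtain ⟨v, rfl, rfl, -⟩ := asg x y x
    refine key (S X Y) (S Y X) (fun B _ v => ?_) v
    simp [S, X, Y, Term.eval, sup_comm]
  have sup_assoc' : ∀ x y z, sp (sp x y) z = sp x (sp y z) := by
    intro x y z
    obtain ⟨v, rfl, rfl, rfl⟩ := asg x y z
    refine key (S (S X Y) Z) (S X (S Y Z)) (fun B _ v => ?_) v
    simp [S, X, Y, Z, Term.eval, sup_assoc]
  have inf_comm' : ∀ x y, nf x y = nf y x := by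
    intro x y
    obtain ⟨v, rfl, rfl, -⟩ := asg x y x
    refine key (N X Y) (N Y X) (fun B _ v => ?_) v
    simp [N, X, Y, Term.eval, inf_comm]
  have inf_assoc' : ∀ x y z, nf (nf x y) z = nf x (nf y z) := by
    intro x y z
    obtain ⟨v, rfl, rfl, rfl⟩ := asg x y z
    refine key (N (N X Y) Z) (N X (N Y Z)) (fun B _ v => ?_) v
    simp [N, X, Y, Z, Term.eval, inf_assoc]
  have sup_inf' : ∀ x y, sp x (nf x y) = x := by
    intro x y
    obtain ⟨v, rfl, rfl, -⟩ := asg x y x
    refine key (S X (N X Y)) X (fun B _ v => ?_) v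
    simp [S, N, X, Y, Term.eval]
  have inf_sup' : ∀ x y, nf x (sp x y) = x := by
    intro x y
    obtain ⟨v, rfl, rfl, -⟩ := asg x y x
    refine key (N X (S X Y)) X (fun B _ v => ?_) v
    simp [S, N, X, Y, Term.eval]
  have distrib' : ∀ x y z, nf (sp x y) (sp x z) = sp x (nf y z) := by
    intro x y z
    obtain ⟨v, rfl, rfl, rfl⟩ := asg x y z
    refine key (N (S X Y) (S X Z)) (S X (N Y Z)) (fun B _ v => ?_) v
    simp [S, N, X, Y, Z, Term.eval, sup_inf_left]
  have inf_compl' : ∀ x, nf x (cp x) = A.zero := by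
    intro x
    obtain ⟨v, rfl, -, -⟩ := asg x x x
    refine key (N X (C X)) .zero (fun B _ v => ?_) v
    simp [N, X, C, Term.eval]
  have sup_compl' : ∀ x, sp x (cp x) = cp A.zero := by
    intro x
    obtain ⟨v, rfl, -, -⟩ := asg x x x
    refine key (S X (C X)) (C .zero) (fun B _ v => ?_) v
    simp [S, X, C, Term.eval]
  have bot_sup' : ∀ x, sp A.zero x = x := by
    intro x
    obtain ⟨v, rfl, -, -⟩ := asg x x x
    refine key (S .zero X) X (fun B _ v => ?_) v
    simp [S, X, Term.eval]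
  have sup_top' : ∀ x, sp x (cp A.zero) = cp A.zero := by
    intro x
    obtain ⟨v, rfl, -, -⟩ := asg x x x
    refine key (S X (C .zero)) (C .zero) (fun B _ v => ?_) v
    simp [S, X, C, Term.eval]
  have imp' : ∀ x y, A.imp x y = sp (cp x) y := by
    intro x y
    obtain ⟨v, rfl, rfl, -⟩ := asg x y x
    refine key (.imp X Y) (S (C X) Y) (fun B _ v => ?_) v
    simp [S, X, Y, C, Term.eval]
  let iMax : Max A.carrier := ⟨sp⟩
  let iMin : Min A.carrier := ⟨nf⟩
  let iL : Lattice A.carrier := Lattice.mk' sup_comm' sup_assoc' inf_comm' inf_assoc'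
    sup_inf' inf_sup'
  let iD : DistribLattice A.carrier := { iL with
    le_sup_inf := fun x y z => le_of_eq (distrib' x y z) }
  have le_def : ∀ x y : A.carrier, x ≤ y ↔ sp x y = y := fun x y => sup_eq_right.symm
  let iB : BooleanAlgebra A.carrier := { iD with
    compl := cp
    bot := A.zero
    top := cp A.zero
    sdiff := fun x y => nf x (cp y)
    himp := fun x y => sp y (cp x)
    sdiff_eq := fun _ _ => rfl
    himp_eq := fun _ _ => rfl
    inf_compl_le_bot := fun x => le_of_eq (inf_compl' x)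
    top_le_sup_compl := fun x => le_of_eq (sup_compl' x).symm
    le_top := fun x => (le_def _ _).2 (sup_top' x)
    bot_le := fun x => (le_def _ _).2 (bot_sup' x) }
  exact ⟨iB, imp', rfl⟩

/-- The variety of Boolean algebras, as a subvariety of `IZ`. -/
def BA : SubIZ := ⟨classBA, isSubvariety_BA⟩

end Pool.Agent.H84.Zroupoid
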