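import Mathlib
import Pool.Agent.H84.ZroupoidDefs

/-!
# The variety of zero-multiplication zroupoids is neutral in the lattice of subvarieties of IZ
-/

set_option autoImplicit false

namespace Pool.Agent.H84.Zroupoid

/-- The variety of zero-multiplication zroupoids, as a subvariety of `IZ`. -/
def ZM : SubIZ := ⟨classZM, isSubvariety_ZM⟩

/-! ### Equational lemmas in `IZ`, written multiplicatively -/

namespace Eqn

variable {M : Type*} [Mul M] {o : M} (h1 : ∀ x y z : M, x * y * z = (z * o * x) * (y * z * o) * o)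
  (h0 : o * o * o = o)

include h1 h0

theorem e2 (x : M) : o * (x * o * o) * o = o * x * o := by
  have := h1 o x o
  rw [h0] at this
  exact this.symm

theorem e3 (x : M) : (o * o) * x * o * o = x * o * o := by
  have := h1 x o o
  rw [h0] at this
  exact this.symm

theorem e4 (x : M) : ((o * o) * x) * (o * o) * o = x * (o * o) * o := by
  have := h1 x (o * o) o
  rw [h0] at this
  exact this.symm

theorem e6 (x y : M) : (o * x) * (y * (o * o) * o) * o = x * y * (o * o) := by
  have := h1 x y (o * o)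
  rw [h0] at this
  exact this.symm

theorem e7 (x : M) : x * (o * o) * o * o * o = (o * x) * (o * o) * o := by
  have a := e3 h1 h0 (x * (o * o) * o)
  have b := e6 h1 h0 o x
  rw [b] at a
  exact a.symm

theorem e8 : o * (o * o) * (o * o) * o = o := by
  have a := e7 h1 h0 (o * o)
  rw [e3 h1 h0 (o * o), h0, h0] at a
  exact a.symm

theorem e9 (x : M) : x * (o * (o * o)) * (o * o) = o * x * o * o := by
  have a := e6 h1 h0 x (o * (o * o))
  rw [e8 h1 h0] at a
  exact a.symm

theorem e12 (x y : M) : x * ((o * o) * y) * o = x * y * o := by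
  rw [h1 x ((o * o) * y) o, e3 h1 h0 y, ← h1 x y o]

theorem e15 : (o * o) * (o * o) * o = o := by
  have a := e4 h1 h0 (o * (o * o))
  rw [e8 h1 h0, e9 h1 h0, e7 h1 h0 o] at a
  exact a

theorem e16 (x : M) : x * (o * o) * (o * o) = o * x * o * o := by
  have a := e6 h1 h0 x (o * o)
  rw [e15 h1 h0] at a
  exact a.symm

theorem e18 (x : M) : o * (x * (o * o)) * o * o = o * x * o * o * (o * o) := by
  rw [← e16 h1 h0 (x * (o * o)), e16 h1 h0 x]

theorem e24 (x : M) : o * ((o * x) * (o * o)) * o = o * (x * (o * o)) * o := by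
  rw [← e2 h1 h0 (o * x * (o * o)), ← e7 h1 h0 x, e2 h1 h0 (x * (o * o) * o * o), e2 h1 h0]

theorem e25 : o * (o * (o * o)) * o = o * (o * o) * o := by
  rw [← e24 h1 h0 o, ← e2 h1 h0 (o * o * (o * o)), e15 h1 h0]

theorem e26 : o * (o * o) * o * o = (o * o) * (o * o) := by
  have a := e18 h1 h0 o
  rw [e25 h1 h0, h0] at a
  exact a

theorem e33 (x : M) : x * (o * (o * o)) * o = x * (o * o) * o := by
  rw [h1 x (o * (o * o)) o, e26 h1 h0, e12 h1 h0, e4 h1 h0]

theorem e34 : (o * o) * (o * o) = o * o := by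
  have a := e3 h1 h0 (o * (o * o))
  rw [e33 h1 h0, e3 h1 h0, h0, e26 h1 h0] at a
  exact a.symm

theorem e36 (x : M) : (o * o) * (x * o * o) * o = (o * o) * x * o := by
  have a := h1 (o * o) x o
  rw [e34 h1 h0] at a
  exact a.symm

theorem e37 (x : M) : x * o * o * o * o = x * o * o := by
  have a := e3 h1 h0 (x * o * o)
  rw [e36 h1 h0, e3 h1 h0] at a
  exact a.symm

theorem prodprod (x y z : M) : x * y * z * o * o = x * y * z := by
  rw [h1 x y z, h1 (z * o) x (y * z * o), e37 h1 h0]

end Eqn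

theorem h0 {A : Alg} (hA : A ∈ IZ) : A.imp (A.imp A.zero A.zero) A.zero = A.zero := hA.2

theorem e37 {A : Alg} (hA : A ∈ IZ) (x : A.carrier) :
    A.imp (A.imp (A.imp (A.imp x A.zero) A.zero) A.zero) A.zero =
      A.imp (A.imp x A.zero) A.zero :=
  @Eqn.e37 A.carrier ⟨A.imp⟩ A.zero hA.1 hA.2 x

theorem prodprod {A : Alg} (hA : A ∈ IZ) (x y z : A.carrier) :
    A.imp (A.imp (A.imp (A.imp x y) z) A.zero) A.zero = A.imp (A.imp x y) z :=
  @Eqn.prodprod A.carrier ⟨A.imp⟩ A.zero hA.1 hA.2 x y z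

/-! ### The core `A''` of an implication zroupoid -/

/-- `x''`. -/
abbrev dd (A : Alg) (x : A.carrier) : A.carrier := A.imp (A.imp x A.zero) A.zero

/-- The subalgebra of all `x` with `x'' = x`. -/
def core (A : Alg) (hA : A ∈ IZ) : Alg where
  carrier := {x : A.carrier // dd A x = x}
  imp x y := ⟨A.imp x.1 y.1, by
    have h := prodprod hA (A.imp x.1 A.zero) A.zero y.1
    have hx := x.2
    unfold dd at *
    rw [hx] at h
    exact h⟩
  zero := ⟨A.zero, h0 hA⟩

/-- Homomorphisms of `(2,0)`-algebras. -/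
structure IsHom (A B : Alg) (f : A.carrier → B.carrier) : Prop where
  imp : ∀ x y, f (A.imp x y) = B.imp (f x) (f y)
  zero : f A.zero = B.zero

theorem IsHom.eval {A B : Alg} {f : A.carrier → B.carrier} (hf : IsHom A B f) (v : ℕ → A.carrier)
    (t : Term) : f (t.eval A v) = t.eval B (fun n => f (v n)) := by
  induction t with
  | var n => rfl
  | zero => exact hf.zero
  | imp s t hs ht => simp only [Term.eval]; rw [hf.imp, hs, ht]

theorem sat_of_injective {A B : Alg} {f : A.carrier → B.carrier} (hf : IsHom A B f)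
    (hi : Function.Injective f) {e : Term × Term} (h : Sat B e) : Sat A e := by
  intro v
  apply hi
  rw [hf.eval, hf.eval]
  exact h _

theorem sat_of_surjective {A B : Alg} {f : A.carrier → B.carrier} (hf : IsHom A B f)
    (hs : Function.Surjective f) {e : Term × Term} (h : Sat A e) : Sat B e := by
  intro v
  obtain ⟨g, hg⟩ := hs.hasRightInverse
  have h1 := congrArg f (h (fun n => g (v n)))
  rw [hf.eval, hf.eval] at h1
  have : (fun n => f (g (v n))) = v := by funext n; exact hg _
  rw [this] at h1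
  exact h1

theorem core_val_hom (A : Alg) (hA : A ∈ IZ) :
    IsHom (core A hA) A (Subtype.val : (core A hA).carrier → A.carrier) := ⟨fun _ _ => rfl, rfl⟩

theorem sat_core {A : Alg} (hA : A ∈ IZ) {e : Term × Term} (h : Sat A e) : Sat (core A hA) e :=
  sat_of_injective (core_val_hom A hA) Subtype.val_injective h

/-- Nonvariable terms. -/
def NonVar : Term → Prop
  | .var _ => False
  | .zero => True
  | .imp _ _ => True

theorem eval_ZM {A : Alg} (hA : A ∈ classZM) (v : ℕ → A.carrier) {t : Term} (ht : NonVar t) :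
    t.eval A v = A.zero := by
  cases t with
  | var n => exact absurd ht id
  | zero => rfl
  | imp s t => exact hA _ _

/-- The two element zero-multiplication algebra. -/
def two : Alg := ⟨Bool, fun _ _ => false, false⟩

theorem two_mem : two ∈ classZM := fun _ _ => rfl

/-- The identities of `ZM`. -/
theorem mem_Th_ZM (e : Term × Term) :
    e ∈ Th classZM ↔ (NonVar e.1 ∧ NonVar e.2) ∨ e.1 = e.2 := by
  constructor
  · intro h
    obtain ⟨s, t⟩ := e
    have h2 := h two two_mem
    by_cases hs : NonVar s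
    · by_cases ht : NonVar t
      · exact Or.inl ⟨hs, ht⟩
      · cases t with
        | var n =>
          have h3 := h2 (fun _ => true)
          have h4 := eval_ZM two_mem (fun _ => true) hs
          have h5 : s.eval two (fun _ => true) = true := h3
          rw [h5] at h4
          exact absurd h4 (by simp [two])
        | zero => exact absurd trivial ht
        | imp a b => exact absurd trivial ht
    · cases s with
      | var n =>
        by_cases ht : NonVar t
        · have h3 := h2 (fun _ => true)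
          have h4 := eval_ZM two_mem (fun _ => true) ht
          have h5 : true = t.eval two (fun _ => true) := h3
          rw [← h5] at h4
          exact absurd h4 (by simp [two])
        · cases t with
          | var m =>
            right
            by_contra hne
            have hnm : n ≠ m := fun h => hne (by rw [h])
            have h3 := h2 (fun k => decide (k = n))
            have h5 : decide (n = n) = decide (m = n) := h3
            rw [decide_eq_true rfl, eq_comm, decide_eq_true_iff] at h5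
            exact hnm h5.symm
          | zero => exact absurd trivial ht
          | imp a b => exact absurd trivial ht
      | zero => exact absurd trivial hs
      | imp a b => exact absurd trivial hs
  · rintro (⟨h1, h2⟩ | h) A hA v
    · rw [eval_ZM hA v h1, eval_ZM hA v h2]
    · rw [h]

/-- The identity `x ≈ x''`. -/
def idDD : Term × Term := (.var 0, .imp (.imp (.var 0) .zero) .zero)

theorem idDD_iff (A : Alg) : Sat A idDD ↔ ∀ x, dd A x = x := by
  constructor
  · intro h x
    exact (h fun _ => x).symm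
  · intro h v
    exact (h _).symm

theorem idDD_not_mem : idDD ∉ Th classZM := by
  rw [mem_Th_ZM]
  rintro (⟨h, -⟩ | h)
  · exact h
  · exact absurd h (by simp [idDD])

theorem dd_eq_of_eval {A : Alg} (hA : A ∈ IZ)
    (h : ∀ x : A.carrier, ∃ a b, x = A.imp a b) (x : A.carrier) : dd A x = x := by
  obtain ⟨a, b, rfl⟩ := h x
  obtain ⟨c, d, rfl⟩ := h a
  exact prodprod hA c d b

theorem eval_prod {A : Alg} (hA : A ∈ IZ) (v : ℕ → A.carrier) {t : Term} (ht : NonVar t) :
    ∃ a b, t.eval A v = A.imp a b := by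
  cases t with
  | var n => exact absurd ht id
  | zero => exact ⟨A.imp A.zero A.zero, A.zero, (h0 hA).symm⟩
  | imp s t => exact ⟨_, _, rfl⟩

/-- A variety of implication zroupoids that does not contain `ZM` satisfies `x ≈ x''`. -/
theorem idDD_of_not_le (V : SubIZ) (h : ¬ ZM ≤ V) : idDD ∈ Th V.1 := by
  obtain ⟨V, hV, E, rfl⟩ := V
  have h' : ¬ classZM ⊆ Mod E := h
  have h2 : ∃ e ∈ E, e ∉ Th classZM := by
    by_contra hc
    push Not at hc
    exact h' fun A hA e he => hc e he A hA
  obtain ⟨⟨s, t⟩, he, hne⟩ := h2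
  rw [mem_Th_ZM] at hne
  push Not at hne
  obtain ⟨hne1, hne2⟩ := hne
  intro A hA
  have hIZ : A ∈ IZ := hV hA
  rw [idDD_iff]
  have hst : Sat A (s, t) := hA _ he
  have step : ∀ s t : Term, Sat A (s, t) → (NonVar s → ¬ NonVar t) → s ≠ t → ¬ NonVar s →
      ∀ x, dd A x = x := by
    intro s t hst hne1 hne2 hs
    cases s with
    | var n =>
      by_cases ht : NonVar t
      · refine dd_eq_of_eval hIZ fun x => ?_
        have h3 := hst (fun _ => x)
        obtain ⟨a, b, hab⟩ := eval_prod hIZ (fun _ => x) ht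
        exact ⟨a, b, by rw [← hab]; exact h3⟩
      · cases t with
        | var m =>
          have hnm : m ≠ n := fun h => hne2 (by rw [h])
          intro x
          have h3 := hst (fun k => if k = n then dd A x else x)
          simp only [Term.eval, if_true, if_neg hnm] at h3
          exact h3
        | zero => exact absurd trivial ht
        | imp a b => exact absurd trivial ht
    | zero => exact absurd trivial hs
    | imp a b => exact absurd trivial hs
  by_cases hs : NonVar s
  · exact step t s (fun v => (hst v).symm) (fun h1 h2 => hne1 h2 h1) hne2.symm (hne1 hs)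
  · exact step s t hst hne1 hne2 hs

theorem mem_sup (V W : SubIZ) (A : Alg) : A ∈ (V ⊔ W).1 ↔ ∀ e, e ∈ Th V.1 → e ∈ Th W.1 → Sat A e := by
  constructor
  · intro h e h1 h2
    refine h e ?_
    rintro B (hB | hB)
    · exact h1 B hB
    · exact h2 B hB
  · intro h e he
    exact h e (fun B hB => he B (Or.inl hB)) (fun B hB => he B (Or.inr hB))

theorem mem_inf (V W : SubIZ) (A : Alg) : A ∈ (V ⊓ W).1 ↔ A ∈ V.1 ∧ A ∈ W.1 := Iff.rfl

theorem mem_of_sat (V : SubIZ) (A : Alg) (h : ∀ e ∈ Th V.1, Sat A e) : A ∈ V.1 := by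
  rw [← closed V]
  exact h

/-- Join-primeness. -/
theorem ZM_prime (V W : SubIZ) (h : ZM ≤ V ⊔ W) : ZM ≤ V ∨ ZM ≤ W := by
  by_contra hc
  push Not at hc
  apply idDD_not_mem
  have : idDD ∈ Th (V ⊔ W).1 := by
    intro A hA
    exact (mem_sup V W A).1 hA _ (idDD_of_not_le V hc.1) (idDD_of_not_le W hc.2)
  exact fun A hA => this A (h hA)

/-- If `A ∈ ZM ∨ V` then `A'' ∈ V`. -/
theorem core_mem (V : SubIZ) (A : Alg) (hA : A ∈ (ZM ⊔ V).1) (hIZ : A ∈ IZ) :
    core A hIZ ∈ V.1 := by
  refine mem_of_sat V _ fun e he => ?_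
  intro v
  have hval := core_val_hom A hIZ
  have h1 : Sat A (.imp (.imp e.1 .zero) .zero, .imp (.imp e.2 .zero) .zero) := by
    rw [mem_sup] at hA
    refine hA _ ?_ ?_
    · exact (mem_Th_ZM _).2 (Or.inl ⟨trivial, trivial⟩)
    · intro B hB w
      simp only [Term.eval]
      rw [he B hB w]
  have h2 := h1 (fun n => (v n).1)
  simp only [Term.eval] at h2
  rw [← hval.eval, ← hval.eval] at h2
  have h3 := (e.1.eval (core A hIZ) v).2
  have h4 := (e.2.eval (core A hIZ) v).2
  unfold dd at h3 h4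
  apply Subtype.ext
  rw [← h3, ← h4]
  exact h2

/-- The identity `x → y ≈ x'' → y''`. -/
def idMul : Term × Term :=
  (.imp (.var 0) (.var 1),
   .imp (.imp (.imp (.var 0) .zero) .zero) (.imp (.imp (.var 1) .zero) .zero))

theorem idMul_iff (A : Alg) : Sat A idMul ↔ ∀ x y, A.imp x y = A.imp (dd A x) (dd A y) := by
  constructor
  · intro h x y
    exact h fun n => if n = 0 then x else y
  · intro h v
    exact h _ _

theorem idMul_of_not_le (V : SubIZ) (h : ¬ ZM ≤ V) (A : Alg) (hA : A ∈ (ZM ⊔ V).1) :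
    Sat A idMul := by
  refine (mem_sup _ _ _).1 hA _ ((mem_Th_ZM _).2 (Or.inl ⟨trivial, trivial⟩)) ?_
  intro B hB
  have h1 := idDD_of_not_le V h B hB
  rw [idDD_iff] at h1
  rw [idMul_iff]
  intro x y
  rw [h1, h1]

theorem eval_nonVar {A : Alg} (hA : A ∈ IZ) (h : Sat A idMul) (v : ℕ → A.carrier) (t : Term) :
    (dd A (t.eval A v) = (t.eval (core A hA) (fun n => ⟨dd A (v n), e37 hA _⟩)).1) ∧
    (NonVar t → t.eval A v = (t.eval (core A hA) (fun n => ⟨dd A (v n), e37 hA _⟩)).1) := by
  rw [idMul_iff] at h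
  induction t with
  | var n => exact ⟨rfl, fun h => absurd h id⟩
  | zero => exact ⟨h0 hA, fun _ => rfl⟩
  | imp s t hs ht =>
    have key : A.imp (s.eval A v) (t.eval A v) =
        A.imp (s.eval (core A hA) (fun n => ⟨dd A (v n), e37 hA _⟩)).1
          (t.eval (core A hA) (fun n => ⟨dd A (v n), e37 hA _⟩)).1 := by
      rw [h, hs.1, ht.1]
    refine ⟨?_, fun _ => key⟩
    change dd A (A.imp (s.eval A v) (t.eval A v)) = A.imp _ _
    rw [← key, h]
    exact prodprod hA (A.imp (s.eval A v) A.zero) A.zero _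

theorem sat_of_core {A : Alg} (hA : A ∈ IZ) (h : Sat A idMul) {e : Term × Term}
    (h1 : NonVar e.1) (h2 : NonVar e.2) (h3 : Sat (core A hA) e) : Sat A e := by
  intro v
  rw [(eval_nonVar hA h v e.1).2 h1, (eval_nonVar hA h v e.2).2 h2]
  exact congrArg Subtype.val (h3 _)

theorem sup_mem_IZ (V : SubIZ) {A : Alg} (h : A ∈ V.1) : A ∈ IZ := V.2.1 h

theorem ZM_sup_inf (V W : SubIZ) : ZM ⊔ (V ⊓ W) = (ZM ⊔ V) ⊓ (ZM ⊔ W) := by
  have main : ∀ V W : SubIZ, ¬ ZM ≤ V → (ZM ⊔ V) ⊓ (ZM ⊔ W) ≤ ZM ⊔ (V ⊓ W) := by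
    intro V W hV A hA
    obtain ⟨hA1, hA2⟩ := hA
    have hIZ := sup_mem_IZ _ hA1
    have hm := idMul_of_not_le V hV A hA1
    have c1 := core_mem V A hA1 hIZ
    have c2 := core_mem W A hA2 hIZ
    rw [mem_sup]
    intro e he1 he2
    rcases (mem_Th_ZM e).1 he1 with ⟨h1, h2⟩ | h
    · exact sat_of_core hIZ hm h1 h2 (he2 _ ⟨c1, c2⟩)
    · intro v; rw [h]
  apply le_antisymm
  · exact sup_le (le_inf le_sup_left le_sup_left)
      (inf_le_inf le_sup_right le_sup_right)
  · by_cases hV : ZM ≤ V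
    · by_cases hW : ZM ≤ W
      · rw [sup_eq_right.2 hV, sup_eq_right.2 hW]
        exact le_sup_right
      · rw [inf_comm (ZM ⊔ V), inf_comm V]
        exact main W V hW
    · exact main V W hV

/-- Cancellation. -/
theorem ZM_cancel (V W : SubIZ) (h1 : ZM ≤ V ↔ ZM ≤ W) (h2 : ZM ⊔ V = ZM ⊔ W) : V = W := by
  have main : ∀ V W : SubIZ, ¬ ZM ≤ V → ZM ⊔ V = ZM ⊔ W → V ≤ W := by
    intro V W hV h A hA
    have hIZ := sup_mem_IZ _ hA
    have hA2 : A ∈ (ZM ⊔ W).1 := by
      rw [← h]
      exact (le_sup_right : V ≤ ZM ⊔ V) hA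
    have hc := core_mem W A hA2 hIZ
    have hd := idDD_of_not_le V hV A hA
    rw [idDD_iff] at hd
    refine mem_of_sat W A fun e he => ?_
    refine sat_of_surjective (core_val_hom A hIZ) ?_ (he _ hc)
    exact fun x => ⟨⟨x, hd x⟩, rfl⟩
  by_cases hV : ZM ≤ V
  · rw [sup_eq_right.2 hV, sup_eq_right.2 (h1.1 hV)] at h2
    exact h2
  · exact le_antisymm (main V W hV h2) (main W V (fun h => hV (h1.2 h)) h2.symm)

/-- The five-element distributive sublattice. -/
theorem five_distrib {L : Type*} [Lattice L] {b p q : L} (hp : b ≤ p) (hq : b ≤ q) {u v w : L}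
    (hu : u ∈ ({b, p, q, p ⊓ q, p ⊔ q} : Set L)) (hv : v ∈ ({b, p, q, p ⊓ q, p ⊔ q} : Set L))
    (hw : w ∈ ({b, p, q, p ⊓ q, p ⊔ q} : Set L)) : u ⊓ (v ⊔ w) = (u ⊓ v) ⊔ (u ⊓ w) := by
  have comp : ∀ v w : L, v ≤ w → u ⊓ (v ⊔ w) = (u ⊓ v) ⊔ (u ⊓ w) := by
    intro v w h
    rw [sup_eq_right.2 h, sup_eq_right.2 (inf_le_inf_left u h)]
  have comp' : ∀ v w : L, w ≤ v → u ⊓ (v ⊔ w) = (u ⊓ v) ⊔ (u ⊓ w) := by
    intro v w h
    rw [sup_comm, comp w v h, sup_comm]
  have hpq : u ⊓ (p ⊔ q) = (u ⊓ p) ⊔ (u ⊓ q) := by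
    have hup : u ≤ p ⊔ q := by
      rcases hu with rfl | rfl | rfl | rfl | rfl
      · exact hp.trans le_sup_left
      · exact le_sup_left
      · exact le_sup_right
      · exact inf_le_left.trans le_sup_left
      · exact le_rfl
    rw [inf_eq_left.2 hup]
    rcases hu with rfl | rfl | rfl | rfl | rfl
    · rw [inf_eq_left.2 hp, inf_eq_left.2 hq, sup_idem]
    · rw [inf_idem, sup_inf_self]
    · rw [inf_idem]; exact (sup_eq_right.2 inf_le_left).symm
    · rw [inf_eq_left.2 (inf_le_left : p ⊓ q ≤ p), inf_eq_left.2 (inf_le_right : p ⊓ q ≤ q), sup_idem]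
    · rw [inf_comm, inf_sup_self, inf_comm, sup_comm p q, inf_sup_self, sup_comm]
  rcases hv with rfl | rfl | rfl | rfl | rfl <;> rcases hw with rfl | rfl | rfl | rfl | rfl
  all_goals first
    | exact hpq
    | (refine comp _ _ ?_; order)
    | (refine comp' _ _ ?_; order)
    | (rw [sup_comm, hpq, sup_comm])

theorem five_closed {L : Type*} [Lattice L] {b p q : L} (hp : b ≤ p) (hq : b ≤ q) {u v : L}
    (hu : u ∈ ({b, p, q, p ⊓ q, p ⊔ q} : Set L)) (hv : v ∈ ({b, p, q, p ⊓ q, p ⊔ q} : Set L)) :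
    u ⊓ v ∈ ({b, p, q, p ⊓ q, p ⊔ q} : Set L) ∧ u ⊔ v ∈ ({b, p, q, p ⊓ q, p ⊔ q} : Set L) := by
  have comp : ∀ u v : L, u ∈ ({b, p, q, p ⊓ q, p ⊔ q} : Set L) →
      v ∈ ({b, p, q, p ⊓ q, p ⊔ q} : Set L) → u ≤ v →
      u ⊓ v ∈ ({b, p, q, p ⊓ q, p ⊔ q} : Set L) ∧ u ⊔ v ∈ ({b, p, q, p ⊓ q, p ⊔ q} : Set L) := by
    intro u v hu hv h
    rw [inf_eq_left.2 h, sup_eq_right.2 h]
    exact ⟨hu, hv⟩
  have hpq : p ⊓ q ∈ ({b, p, q, p ⊓ q, p ⊔ q} : Set L) ∧
      p ⊔ q ∈ ({b, p, q, p ⊓ q, p ⊔ q} : Set L) := by simp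
  have h5 : ∀ u v : L, u ∈ ({b, p, q, p ⊓ q, p ⊔ q} : Set L) →
      v ∈ ({b, p, q, p ⊓ q, p ⊔ q} : Set L) →
      u ≤ v ∨ v ≤ u ∨ (u = p ∧ v = q) ∨ (u = q ∧ v = p) := by
    intro u v hu hv
    rcases hu with rfl | rfl | rfl | rfl | rfl <;> rcases hv with rfl | rfl | rfl | rfl | rfl
    all_goals first
      | (left; order)
      | (right; left; order)
      | (right; right; left; exact ⟨rfl, rfl⟩)
      | (right; right; right; exact ⟨rfl, rfl⟩)
  rcases h5 u v hu hv with h | h | ⟨h1, h2⟩ | ⟨h1, h2⟩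
  · exact comp u v hu hv h
  · rw [inf_comm u v, sup_comm u v]
    exact comp v u hv hu h
  · rw [h1, h2]; exact hpq
  · rw [h1, h2, inf_comm q p, sup_comm q p]; exact hpq

theorem isNeutral_ZM : IsNeutral ZM := by
  intro y z u hu v hv w hw
  have hin : ∀ t ∈ latticeClosure ({ZM, y, z} : Set SubIZ),
      ZM ⊔ t ∈ ({ZM, ZM ⊔ y, ZM ⊔ z, (ZM ⊔ y) ⊓ (ZM ⊔ z), (ZM ⊔ y) ⊔ (ZM ⊔ z)} : Set SubIZ) := by
    intro t ht
    let D : Sublattice SubIZ :=
      { carrier := {t | ZM ⊔ t ∈ ({ZM, ZM ⊔ y, ZM ⊔ z, (ZM ⊔ y) ⊓ (ZM ⊔ z),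
          (ZM ⊔ y) ⊔ (ZM ⊔ z)} : Set SubIZ)}
        supClosed' := by
          intro a ha b hb
          have := (five_closed (b := ZM) le_sup_left le_sup_left ha hb).2
          rw [← sup_sup_distrib_left ZM a b] at this
          exact this
        infClosed' := by
          intro a ha b hb
          have := (five_closed (b := ZM) le_sup_left le_sup_left ha hb).1
          rw [← ZM_sup_inf a b] at this
          exact this }
    have hsub : ({ZM, y, z} : Set SubIZ) ⊆ D := by
      rintro a (rfl | rfl | rfl)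
      · left; exact sup_idem _
      · right; left; rfl
      · right; right; left; rfl
    exact latticeClosure_min hsub D.isSublattice ht
  apply ZM_cancel
  · constructor
    · intro h
      have h1 : ZM ≤ u := h.trans inf_le_left
      rcases ZM_prime v w (h.trans inf_le_right) with h2 | h2
      · exact (le_inf h1 h2).trans le_sup_left
      · exact (le_inf h1 h2).trans le_sup_right
    · intro h
      rcases ZM_prime _ _ h with h2 | h2
      · exact h2.trans (inf_le_inf_left u le_sup_left)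
      · exact h2.trans (inf_le_inf_left u le_sup_right)
  · rw [ZM_sup_inf, sup_sup_distrib_left ZM v w, sup_sup_distrib_left ZM (u ⊓ v) (u ⊓ w),
      ZM_sup_inf, ZM_sup_inf]
    exact five_distrib le_sup_left le_sup_left (hin u hu) (hin v hv) (hin w hw)

end Pool.Agent.H84.Zroupoid
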