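import Mathlib
import Pool.Agent.H84.ZroupoidDefs
import Pool.Agent.H84.ZroupoidBA
import Pool.Agent.H84.ZroupoidZM

/-!
# The varieties SL and BA are not neutral in the lattice of subvarieties of IZ
-/

set_option autoImplicit false

namespace Pool.Agent.H84.Zroupoid

/-- The variety of semilattices with neutral element, as a subvariety of `IZ`. -/
def SL : SubIZ := ⟨classSL, isSubvariety_SL⟩

theorem closure_closed {L : Type*} [Lattice L] {s : Set L} {a b : L} (ha : a ∈ latticeClosure s)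
    (hb : b ∈ latticeClosure s) : a ⊔ b ∈ latticeClosure s ∧ a ⊓ b ∈ latticeClosure s :=
  ⟨isSublattice_latticeClosure.supClosed ha hb, isSublattice_latticeClosure.infClosed ha hb⟩

/-- A neutral element is distributive. -/
theorem neutral_distrib {L : Type*} [Lattice L] {a : L} (h : IsNeutral a) (y z : L) :
    (a ⊔ y) ⊓ (a ⊔ z) = a ⊔ (y ⊓ z) := by
  have ha : a ∈ latticeClosure ({a, y, z} : Set L) := subset_latticeClosure (by simp)
  have hy : y ∈ latticeClosure ({a, y, z} : Set L) := subset_latticeClosure (by simp)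
  have hz : z ∈ latticeClosure ({a, y, z} : Set L) := subset_latticeClosure (by simp)
  have hay := (closure_closed ha hy).1
  rw [h y z _ hay _ ha _ hz, inf_comm (a ⊔ y) a, inf_sup_self, inf_comm (a ⊔ y) z,
    h y z _ hz _ ha _ hy, ← sup_assoc, inf_comm z a, sup_inf_self, inf_comm z y]

/-- Common class `(x → y) → z ≈ 0`, `0 → x ≈ 0`. -/
def N0 : Set (Term × Term) :=
  {(.imp (.imp (.var 0) (.var 1)) (.var 2), .zero), (.imp .zero (.var 0), .zero)}

theorem N0_sub : Mod N0 ⊆ IZ := by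
  intro A hA
  have h1 : ∀ x y z, A.imp (A.imp x y) z = A.zero := fun x y z =>
    hA _ (Or.inl rfl) (fun n => if n = 0 then x else if n = 1 then y else z)
  have h2 : ∀ x, A.imp A.zero x = A.zero := fun x => hA _ (Or.inr rfl) (fun _ => x)
  exact ⟨fun x y z => by rw [h1, h1], h1 _ _ _⟩

/-- `x → x ≈ x → 0`. -/
def idY : Term × Term := (.imp (.var 0) (.var 0), .imp (.var 0) .zero)

/-- `x → x ≈ x → (x → 0)`. -/
def idZ : Term × Term := (.imp (.var 0) (.var 0), .imp (.var 0) (.imp (.var 0) .zero))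

theorem isSub_insert (e : Term × Term) : IsSubvariety (Mod (insert e N0)) :=
  ⟨fun _ hA => N0_sub (mod_anti (Set.subset_insert _ _) hA), _, rfl⟩

/-- The variety `Y`. -/
def VY : SubIZ := ⟨Mod (insert idY N0), isSub_insert _⟩

/-- The variety `Z`. -/
def VZ : SubIZ := ⟨Mod (insert idZ N0), isSub_insert _⟩

theorem mem_N0 {A : Alg} (h1 : ∀ x y z, A.imp (A.imp x y) z = A.zero)
    (h2 : ∀ x, A.imp A.zero x = A.zero) : A ∈ Mod N0 := by
  rintro e (rfl | rfl)
  · exact fun v => h1 _ _ _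
  · exact fun v => h2 _

theorem mem_N0_1 {A : Alg} {e : Term × Term} (hA : A ∈ Mod (insert e N0)) (x y z : A.carrier) :
    A.imp (A.imp x y) z = A.zero :=
  hA _ (Or.inr (Or.inl rfl)) (fun n => if n = 0 then x else if n = 1 then y else z)

theorem mem_N0_2 {A : Alg} {e : Term × Term} (hA : A ∈ Mod (insert e N0)) (x : A.carrier) :
    A.imp A.zero x = A.zero :=
  hA _ (Or.inr (Or.inr rfl)) (fun _ => x)

theorem mem_VY {A : Alg} (h1 : ∀ x y z, A.imp (A.imp x y) z = A.zero)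
    (h2 : ∀ x, A.imp A.zero x = A.zero) (h3 : ∀ x, A.imp x x = A.imp x A.zero) : A ∈ VY.1 := by
  rintro e (rfl | he)
  · exact fun v => h3 _
  · exact mem_N0 h1 h2 e he

theorem mem_VZ {A : Alg} (h1 : ∀ x y z, A.imp (A.imp x y) z = A.zero)
    (h2 : ∀ x, A.imp A.zero x = A.zero) (h3 : ∀ x, A.imp x x = A.imp x (A.imp x A.zero)) :
    A ∈ VZ.1 := by
  rintro e (rfl | he)
  · exact fun v => h3 _
  · exact mem_N0 h1 h2 e he

theorem inf_id {A : Alg} (hA : A ∈ (VY ⊓ VZ).1) (x : A.carrier) :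
    A.imp x A.zero = A.imp x (A.imp x A.zero) := by
  have h1 : A.imp x x = A.imp x A.zero := hA.1 _ (Or.inl rfl) (fun _ => x)
  have h2 : A.imp x x = A.imp x (A.imp x A.zero) := hA.2 _ (Or.inl rfl) (fun _ => x)
  exact h1.symm.trans h2

/-- Membership in a join by means of a quotient of a subdirect product. -/
theorem mem_join {V W : SubIZ} {S N B C : Alg} (hS : S ∈ V.1) (hN : N ∈ W.1)
    (g : B.carrier → S.carrier) (hg : IsHom B S g) (h : B.carrier → N.carrier) (hh : IsHom B N h)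
    (hi : ∀ x y, g x = g y → h x = h y → x = y) (f : B.carrier → C.carrier) (hf : IsHom B C f)
    (hs : Function.Surjective f) : C ∈ (V ⊔ W).1 := by
  rw [mem_sup]
  intro e he1 he2
  refine sat_of_surjective hf hs ?_
  intro v
  apply hi
  · rw [hg.eval, hg.eval]
    exact he1 _ hS _
  · rw [hh.eval, hh.eval]
    exact he2 _ hN _

/-- `N_Y` (for `c = 2`) and `N_Z` (for `c = 3`); elements `o = 0`, `a = 1`, `p = 2`, `q = 3`. -/
def nimp (c x y : Fin 4) : Fin 4 :=
  if x = 1 then (if y = 0 then 2 else if y = 1 then c else 3) else 0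

/-- `N_Y` (for `c = 2`) and `N_Z` (for `c = 3`). -/
def NAlg (c : Fin 4) : Alg := ⟨Fin 4, nimp c, 0⟩

theorem NY_mem : NAlg 2 ∈ VY.1 := by
  apply mem_VY
  · change ∀ x y z : Fin 4, nimp 2 (nimp 2 x y) z = 0
    decide
  · change ∀ x : Fin 4, nimp 2 0 x = 0
    decide
  · change ∀ x : Fin 4, nimp 2 x x = nimp 2 x 0
    decide

theorem NZ_mem : NAlg 3 ∈ VZ.1 := by
  apply mem_VZ
  · change ∀ x y z : Fin 4, nimp 3 (nimp 3 x y) z = 0
    decide
  · change ∀ x : Fin 4, nimp 3 0 x = 0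
    decide
  · change ∀ x : Fin 4, nimp 3 x x = nimp 3 x (nimp 3 x 0)
    decide

/-- The three-element chain as a member of `SL`. -/
def S3 : Alg := ⟨Fin 3, fun x y => max x y, 0⟩

theorem S3_mem : S3 ∈ classSL := by
  refine ⟨⟨?_, rfl⟩, ?_, ?_, ?_⟩
  · change ∀ x y z : Fin 3, max (max x y) z = max (max (max (max z 0) x) (max (max y z) 0)) 0
    decide
  · change ∀ x y z : Fin 3, max (max x y) z = max x (max y z)
    decide
  · change ∀ x : Fin 3, max x x = x
    decide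
  · change ∀ x y : Fin 3, max x y = max y x
    decide

/-- First coordinate of the elements `(0,o), (1,a), (1,o), (1,p), (1,q), (2,o), (2,p), (2,q)` of
the subalgebra `B` of `S3 × N`, for `N = N_Y` or `N_Z`. -/
def bfst : Fin 8 → Fin 3 := ![0, 1, 1, 1, 1, 2, 2, 2]

/-- Second coordinate. -/
def bsnd : Fin 8 → Fin 4 := ![0, 1, 0, 2, 3, 0, 2, 3]

/-- The element with given coordinates. -/
def bmk : Fin 3 → Fin 4 → Fin 8 := ![![0, 0, 0, 0], ![2, 1, 3, 4], ![5, 5, 6, 7]]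

/-- The multiplication of `B`. -/
def bimp (c : Fin 4) (x y : Fin 8) : Fin 8 :=
  bmk (max (bfst x) (bfst y)) (nimp c (bsnd x) (bsnd y))

/-- `B`. -/
def BAlg (c : Fin 4) : Alg := ⟨Fin 8, bimp c, 0⟩

/-- The level of the elements `z, a, o1, o2, p, q` of `W`. -/
def wlev : Fin 6 → Fin 3 := ![0, 1, 1, 2, 2, 2]

/-- The neutral elements of the three levels. -/
def wofLev : Fin 3 → Fin 6 := ![0, 2, 3]

/-- The multiplication of `W`. -/
def wimp (x y : Fin 6) : Fin 6 :=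
  if x = 1 then ![2, 2, 2, 4, 5, 5] y else wofLev (max (wlev x) (wlev y))

/-- `W`. -/
def WAlg : Alg := ⟨Fin 6, wimp, 0⟩

/-- The quotient map `B → W`. -/
def toW : Fin 8 → Fin 6 := ![0, 1, 2, 2, 2, 3, 4, 5]

theorem WAlg_mem_Y : WAlg ∈ (SL ⊔ VY).1 := by
  refine mem_join (S := S3) (B := BAlg 2) S3_mem NY_mem bfst ⟨?_, rfl⟩ bsnd ⟨?_, rfl⟩ ?_
    toW ⟨?_, rfl⟩ ?_
  · change ∀ x y : Fin 8, bfst (bimp 2 x y) = max (bfst x) (bfst y)
    decide
  · change ∀ x y : Fin 8, bsnd (bimp 2 x y) = nimp 2 (bsnd x) (bsnd y)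
    decide
  · change ∀ x y : Fin 8, bfst x = bfst y → bsnd x = bsnd y → x = y
    decide
  · change ∀ x y : Fin 8, toW (bimp 2 x y) = wimp (toW x) (toW y)
    decide
  · change ∀ x : Fin 6, ∃ y : Fin 8, toW y = x
    decide

theorem WAlg_mem_Z : WAlg ∈ (SL ⊔ VZ).1 := by
  refine mem_join (S := S3) (B := BAlg 3) S3_mem NZ_mem bfst ⟨?_, rfl⟩ bsnd ⟨?_, rfl⟩ ?_
    toW ⟨?_, rfl⟩ ?_
  · change ∀ x y : Fin 8, bfst (bimp 3 x y) = max (bfst x) (bfst y)
    decide
  · change ∀ x y : Fin 8, bsnd (bimp 3 x y) = nimp 3 (bsnd x) (bsnd y)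
    decide
  · change ∀ x y : Fin 8, bfst x = bfst y → bsnd x = bsnd y → x = y
    decide
  · change ∀ x y : Fin 8, toW (bimp 3 x y) = wimp (toW x) (toW y)
    decide
  · change ∀ x : Fin 6, ∃ y : Fin 8, toW y = x
    decide

/-- The identity `x → y'' ≈ x → (x → y'')`. -/
def idSL : Term × Term :=
  (.imp (.var 0) (.imp (.imp (.var 1) .zero) .zero),
   .imp (.var 0) (.imp (.var 0) (.imp (.imp (.var 1) .zero) .zero)))

theorem idSL_join : ∀ A ∈ (SL ⊔ (VY ⊓ VZ)).1, Sat A idSL := by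
  intro A hA
  rw [mem_sup] at hA
  apply hA
  · rintro B ⟨-, h1, h2, h3⟩ v
    simp only [idSL, Term.eval]
    rw [← h1 (v 0) (v 0), h2 (v 0)]
  · intro B hB v
    simp only [idSL, Term.eval]
    rw [mem_N0_1 hB.1]
    exact inf_id hB _

theorem not_idSL : ¬ Sat WAlg idSL := by
  intro h
  have := h (fun n => if n = 0 then (1 : Fin 6) else (3 : Fin 6))
  have h2 : wimp 1 (wimp (wimp 3 0) 0) = wimp 1 (wimp 1 (wimp (wimp 3 0) 0)) := this
  exact absurd h2 (by decide)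

theorem not_isNeutral_SL : ¬ IsNeutral SL := by
  intro h
  have h1 := neutral_distrib h VY VZ
  have h2 : WAlg ∈ ((SL ⊔ VY) ⊓ (SL ⊔ VZ)).1 := ⟨WAlg_mem_Y, WAlg_mem_Z⟩
  rw [h1] at h2
  exact not_idSL (idSL_join _ h2)

/-! ### Boolean algebras -/

/-- The two-element Boolean algebra. -/
def B2 : Alg := ⟨Bool, fun x y => !x || y, false⟩

theorem B2_mem : B2 ∈ classBA := ⟨inferInstanceAs (BooleanAlgebra Bool), fun _ _ => rfl, rfl⟩

/-- First coordinate of the elements `(0,o), (0,p), (0,q), (1,o), (1,p), (1,q), (1,a)` of the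
subalgebra `C` of `B2 × N`. -/
def cfst : Fin 7 → Bool := ![false, false, false, true, true, true, true]

/-- Second coordinate. -/
def csnd : Fin 7 → Fin 4 := ![0, 2, 3, 0, 2, 3, 1]

/-- The element with given coordinates. -/
def cmk (b : Bool) : Fin 4 → Fin 7 := if b then ![3, 6, 4, 5] else ![0, 0, 1, 2]

/-- The multiplication. -/
def cimp (c : Fin 4) (x y : Fin 7) : Fin 7 := cmk (!(cfst x) || cfst y) (nimp c (csnd x) (csnd y))

/-- The algebra `C`. -/
def CAlg (c : Fin 4) : Alg := ⟨Fin 7, cimp c, 0⟩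

/-- The multiplication of `W' = {z, P, Q, T, g}`. -/
def ximp (x y : Fin 5) : Fin 5 :=
  if x = 4 then ![1, 2, 2, 3, 3] y else if x = 3 then ![0, 0, 0, 3, 3] y else 3

/-- `W'`. -/
def XAlg : Alg := ⟨Fin 5, ximp, 0⟩

/-- The quotient map `C → W'`. -/
def toX : Fin 7 → Fin 5 := ![0, 1, 2, 3, 3, 3, 4]

theorem XAlg_mem_Y : XAlg ∈ (BA ⊔ VY).1 := by
  refine mem_join (S := B2) (B := CAlg 2) B2_mem NY_mem cfst ⟨?_, rfl⟩ csnd ⟨?_, rfl⟩ ?_
    toX ⟨?_, rfl⟩ ?_
  · change ∀ x y : Fin 7, cfst (cimp 2 x y) = (!(cfst x) || cfst y)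
    decide
  · change ∀ x y : Fin 7, csnd (cimp 2 x y) = nimp 2 (csnd x) (csnd y)
    decide
  · change ∀ x y : Fin 7, cfst x = cfst y → csnd x = csnd y → x = y
    decide
  · change ∀ x y : Fin 7, toX (cimp 2 x y) = ximp (toX x) (toX y)
    decide
  · change ∀ x : Fin 5, ∃ y : Fin 7, toX y = x
    decide

theorem XAlg_mem_Z : XAlg ∈ (BA ⊔ VZ).1 := by
  refine mem_join (S := B2) (B := CAlg 3) B2_mem NZ_mem cfst ⟨?_, rfl⟩ csnd ⟨?_, rfl⟩ ?_
    toX ⟨?_, rfl⟩ ?_
  · change ∀ x y : Fin 7, cfst (cimp 3 x y) = (!(cfst x) || cfst y)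
    decide
  · change ∀ x y : Fin 7, csnd (cimp 3 x y) = nimp 3 (csnd x) (csnd y)
    decide
  · change ∀ x y : Fin 7, cfst x = cfst y → csnd x = csnd y → x = y
    decide
  · change ∀ x y : Fin 7, toX (cimp 3 x y) = ximp (toX x) (toX y)
    decide
  · change ∀ x : Fin 5, ∃ y : Fin 7, toX y = x
    decide

/-- The identity `x → 0 ≈ x → (x → 0)`. -/
def idBA : Term × Term := (.imp (.var 0) .zero, .imp (.var 0) (.imp (.var 0) .zero))

theorem idBA_join : ∀ A ∈ (BA ⊔ (VY ⊓ VZ)).1, Sat A idBA := by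
  intro A hA
  rw [mem_sup] at hA
  apply hA
  · rintro B ⟨hB, h1, h2⟩ v
    simp only [idBA, Term.eval]
    rw [h1 (v 0) (B.imp _ _), h1 (v 0) B.zero, ← sup_assoc, sup_idem]
  · intro B hB v
    exact inf_id hB _

theorem not_idBA : ¬ Sat XAlg idBA := by
  intro h
  have := h (fun _ => (4 : Fin 5))
  have h2 : ximp 4 0 = ximp 4 (ximp 4 0) := this
  exact absurd h2 (by decide)

theorem not_isNeutral_BA : ¬ IsNeutral BA := by
  intro h
  have h1 := neutral_distrib h VY VZ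
  have h2 : XAlg ∈ ((BA ⊔ VY) ⊓ (BA ⊔ VZ)).1 := ⟨XAlg_mem_Y, XAlg_mem_Z⟩
  rw [h1] at h2
  exact not_idBA (idBA_join _ h2)

end Pool.Agent.H84.Zroupoid
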